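import Mathlib
import Pool.Agent.U610.PC.Stm

/-!
# Project PC, package DICH: the dichotomy
-/

set_option autoImplicit false

namespace Pool.Agent.U504.PC

open Polynomial Pool.Agent.TH766.HP Pool.Agent.TH783.CE Pool.Agent.U610.PC

theorem iso_scale {F : Type} [Field F] {n : ℕ} {d : Fin n → F} {c : F} (hc : c ≠ 0) :
    Iso (fun i => c * d i) ↔ Iso d := by
  constructor
  · rintro ⟨y, hy, h⟩
    refine ⟨y, hy, ?_⟩
    have h1 : c * ∑ i, d i * y i ^ 2 = 0 := by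
      rw [Finset.mul_sum, ← h]
      exact Finset.sum_congr rfl fun i _ => by ring
    exact (mul_eq_zero.1 h1).resolve_left hc
  · rintro ⟨y, hy, h⟩
    refine ⟨y, hy, ?_⟩
    have h1 : ∑ i, c * d i * y i ^ 2 = c * ∑ i, d i * y i ^ 2 := by
      rw [Finset.mul_sum]
      exact Finset.sum_congr rfl fun i _ => by ring
    rw [h1, h, mul_zero]

theorem coe_aeval {p : ℕ} [Fact p.Prime] (x : ℤ_[p]) (P : ℤ[X]) :
    ((aeval x P : ℤ_[p]) : ℚ_[p]) = aeval ((x : ℤ_[p]) : ℚ_[p]) P := by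
  rw [aeval_def, aeval_def]
  have h := Polynomial.hom_eval₂ P (algebraMap ℤ ℤ_[p]) (PadicInt.Coe.ringHom (p := p)) x
  have h2 : (PadicInt.Coe.ringHom (p := p)).comp (algebraMap ℤ ℤ_[p]) = algebraMap ℤ ℚ_[p] :=
    RingHom.ext_int _ _
  rw [h2] at h
  exact h

theorem t_DICH (hR : S_RES) (hF : S_FACT) (hU : S_UNI) (hL : S_LOCF) (hO : S_OBS) : S_DICH := by
  classical
  intro n hn D hD
  obtain ⟨N, S, hS, hN⟩ := hF.1 n D hD
  have hF2 : ∀ P : ℤ[X], ∃ (c : ℤ) (e : Fin n → ℕ) (R : Fin n → ℤ[X]), P ∈ S →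
      (c ≠ 0 ∧ ∀ i, C (c ^ 2) * D i = P ^ e i * R i ∧ IsCoprime (q P) (q (R i))) := by
    intro P
    by_cases hP : P ∈ S
    · obtain ⟨c, e, R, hc, h⟩ := hF.2 n D P hD (hS P hP)
      exact ⟨c, e, R, fun _ => ⟨hc, h⟩⟩
    · exact ⟨0, 0, 0, fun h => absurd h hP⟩
  choose c e R hcR using hF2
  by_cases hfree : ∀ P ∈ S, Free P (e P) (R P)
  · left
    have hL' : ∀ P : ℤ[X], ∃ M : ℕ, P ∈ S → ∀ (p : ℕ) [Fact p.Prime], M < p →
        ∀ x : ℤ_[p], ‖(aeval x P : ℤ_[p])‖ < 1 → (aeval x P : ℤ_[p]) ≠ 0 →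
          Iso fun i => ((aeval x (P ^ e P i * R P i) : ℤ_[p]) : ℚ_[p]) := by
      intro P
      by_cases hP : P ∈ S
      · obtain ⟨M, hM⟩ := hL n P (e P) (R P) (fun i => ((hcR P hP).2 i).2) (hfree P hP)
        exact ⟨M, fun _ => hM⟩
      · exact ⟨0, fun h => absurd h hP⟩
    choose NL hNL using hL'
    have hR' : ∀ (P : ℤ[X]) (i : Fin n), ∃ M : ℕ, P ∈ S → ∀ (p : ℕ) [Fact p.Prime],
        M < p → ∀ x : ℤ_[p], ‖(aeval x P : ℤ_[p])‖ < 1 → ‖(aeval x (R P i) : ℤ_[p])‖ = 1 := by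
      intro P i
      by_cases hP : P ∈ S
      · obtain ⟨M, hM⟩ := hR P (R P i) ((hcR P hP).2 i).2
        exact ⟨M, fun _ => hM⟩
      · exact ⟨0, fun h => absurd h hP⟩
    choose NR hNR using hR'
    refine ⟨2 + N + ∑ P ∈ S, (NL P + ∑ i, NR P i), fun p hp hlt x hx => ?_⟩
    have hp2 : p ≠ 2 := by omega
    have hNp : N < p := by omega
    rcases hN p hNp x with hunit | ⟨P, hPS, hP1⟩
    · have h := hU p hp2 n hn (fun i => aeval x (D i)) hunit
      simp only [coe_aeval] at h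
      exact h
    · have hle : NL P + ∑ i, NR P i ≤ ∑ P ∈ S, (NL P + ∑ i, NR P i) :=
        Finset.single_le_sum (f := fun P => NL P + ∑ i, NR P i) (fun _ _ => Nat.zero_le _) hPS
      obtain ⟨hc0, hDR⟩ := hcR P hPS
      have hcp : ((c P : ℤ) : ℚ_[p]) ^ 2 ≠ 0 := pow_ne_zero _ (by exact_mod_cast hc0)
      have heq : ∀ i, ((aeval x (P ^ e P i * R P i) : ℤ_[p]) : ℚ_[p]) =
          ((c P : ℤ) : ℚ_[p]) ^ 2 * aeval ((x : ℤ_[p]) : ℚ_[p]) (D i) := by
        intro i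
        rw [coe_aeval, ← (hDR i).1, map_mul, aeval_C]
        simp
      by_cases hPx : (aeval x P : ℤ_[p]) = 0
      · have he : ∀ i, e P i = 0 := by
          intro i
          by_contra hne
          have h1 := heq i
          rw [map_mul, map_pow, hPx, zero_pow hne, zero_mul] at h1
          have h2 : ((c P : ℤ) : ℚ_[p]) ^ 2 * aeval ((x : ℤ_[p]) : ℚ_[p]) (D i) ≠ 0 :=
            mul_ne_zero hcp (hx i)
          exact h2 (by rw [← h1]; simp)
        have hun : ∀ i, ‖(aeval x (R P i) : ℤ_[p])‖ = 1 := by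
          intro i
          refine hNR P i hPS p ?_ x hP1
          have : NR P i ≤ ∑ i, NR P i :=
            Finset.single_le_sum (f := fun i => NR P i) (fun _ _ => Nat.zero_le _)
              (Finset.mem_univ i)
          omega
        have h := hU p hp2 n hn (fun i => aeval x (R P i)) hun
        have h3 : (fun i => (((fun i => (aeval x (R P i) : ℤ_[p])) i : ℤ_[p]) : ℚ_[p])) =
            fun i => ((c P : ℤ) : ℚ_[p]) ^ 2 * aeval ((x : ℤ_[p]) : ℚ_[p]) (D i) := by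
          funext i
          rw [← heq i, he i, pow_zero, one_mul]
        rw [h3] at h
        exact (iso_scale hcp).1 h
      · have h := hNL P hPS p (by omega) x hP1 hPx
        have h3 : (fun i => ((aeval x (P ^ e P i * R P i) : ℤ_[p]) : ℚ_[p])) =
            fun i => ((c P : ℤ) : ℚ_[p]) ^ 2 * aeval ((x : ℤ_[p]) : ℚ_[p]) (D i) :=
          funext heq
        rw [h3] at h
        exact (iso_scale hcp).1 h
  · right
    push Not at hfree
    obtain ⟨P, hPS, hnf⟩ := hfree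
    obtain ⟨hc0, hDR⟩ := hcR P hPS
    have hob := hO n hn P (e P) (R P) (hS P hPS) (fun i => (hDR i).2) hnf
    intro M
    obtain ⟨p, hp, a₀, hlt, h⟩ := hob M
    refine ⟨p, hp, a₀, hlt, fun a ha hiso => h a ha ?_⟩
    have hcp : ((c P : ℤ) : ℚ_[p]) ^ 2 ≠ 0 := pow_ne_zero _ (by exact_mod_cast hc0)
    have h3 : (fun i => (((P ^ e P i * R P i).eval a : ℤ) : ℚ_[p])) =
        fun i => ((c P : ℤ) : ℚ_[p]) ^ 2 * (((D i).eval a : ℤ) : ℚ_[p]) := by
      funext i
      rw [← (hDR i).1, eval_mul, eval_C]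
      push_cast
      ring
    rw [h3]
    exact (iso_scale hcp).2 hiso

end Pool.Agent.U504.PC
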